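import Mathlib

/-!
# MP_ae1cd8_an: uniform boundedness of a detailed-balance jump semigroup in weighted `L¹` (Q1 false)

Data: `Ω = ℕ`, `ν{n} = 8^{-n}`, `ω(n) = 2^{-n}`, `p(n+1,n) = 8^{n+1}`, `p(n,n+1) = 4·8^n`.
The jump rates are `1` upwards and `4` downwards, `σ̂_s ≤ 17/2`, `U₁` is bounded on `L¹(μ)` and has
the eigenvalue `5/3` with eigenfunction `φ(n) = 8^n (3 (3/2)^n + 5 (1/6)^n) ∈ L¹(μ)`.
-/

open MeasureTheory Filter Topology Set
open scoped ENNReal NNReal

namespace Pool.Agent.Results.MP_ae1cd8_an.ExponentialGrowth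

/-- The data `(ν, p, ω)` on a measurable space `Ω`. -/
structure JumpData (Ω : Type) [MeasurableSpace Ω] where
  /-- the reference measure -/
  ν : Measure Ω
  /-- the scattering kernel -/
  p : Ω → Ω → ℝ
  /-- the detailed balance weight -/
  ω : Ω → ℝ

namespace JumpData

variable {Ω : Type} [MeasurableSpace Ω] (D : JumpData Ω)

/-- `σ(x) = ∫ p(y,x) ν(dy)`. -/
noncomputable def sigma (x : Ω) : ℝ≥0∞ := ∫⁻ y, ENNReal.ofReal (D.p y x) ∂D.ν

/-- `σ̂_s(y) = ∫ p(y,x) ν(dx)`. -/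
noncomputable def sigmaHat (y : Ω) : ℝ≥0∞ := ∫⁻ x, ENNReal.ofReal (D.p y x) ∂D.ν

/-- `μ(dx) = ω(x) ν(dx)`. -/
noncomputable def mu : Measure Ω := D.ν.withDensity (fun x => ENNReal.ofReal (D.ω x))

/-- All standing assumptions of the problem, including condition (A). -/
structure Admissible : Prop where
  sigmaFinite : SigmaFinite D.ν
  p_meas : Measurable (Function.uncurry D.p)
  p_nonneg : ∀ x y, 0 ≤ D.p x y
  ω_meas : Measurable D.ω
  ω_pos : ∀ x, 0 < D.ω x
  balance : ∀ x y, D.ω x * D.p x y = D.ω y * D.p y x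
  sigma_pos : ∀ᵐ x ∂D.ν, 0 < D.sigma x ∧ D.sigma x < ∞
  condA : (⨆ y, D.sigmaHat y / (1 + D.sigma y)) < ∞

/-- The complex Banach space `L¹(μ)`. -/
def X : Type := Lp ℂ 1 D.mu

noncomputable instance instX : NormedAddCommGroup D.X :=
  (inferInstance : NormedAddCommGroup (Lp ℂ 1 D.mu))

noncomputable instance instX' : NormedSpace ℂ D.X :=
  (inferInstance : NormedSpace ℂ (Lp ℂ 1 D.mu))

/-- The underlying (a.e. defined) function of an element of `L¹(μ)`. -/
noncomputable def fn (φ : D.X) : Ω → ℂ := (show Lp ℂ 1 D.mu from φ)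

/-- The graph of the operator `U₁ = M₁ + P` on functions: `σ φ ∈ L¹(μ)` and `ψ = -σ φ + P φ`. -/
def IsU1fn (φ ψ : Ω → ℂ) : Prop :=
  Integrable (fun x => ((D.sigma x).toReal : ℂ) * φ x) D.mu ∧
    ψ =ᵐ[D.mu] fun x => -((D.sigma x).toReal : ℂ) * φ x + ∫ y, (D.p x y : ℂ) * φ y ∂D.ν

/-- The graph of the operator `U₁ = M₁ + P` on the complex space `L¹(μ)`: `φ ∈ D(M₁)` and
`ψ = -σ φ + P φ`. -/
def IsU1 (φ ψ : D.X) : Prop := D.IsU1fn (D.fn φ) (D.fn ψ)

end JumpData

/-- `(T(t))_{t ≥ 0}` is a `C₀`-semigroup of bounded operators on `E`. -/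
structure IsC0Semigroup {E : Type} [NormedAddCommGroup E] [NormedSpace ℂ E]
    (T : ℝ → E →L[ℂ] E) : Prop where
  zero : T 0 = 1
  add : ∀ s t, 0 ≤ s → 0 ≤ t → T (s + t) = T s * T t
  cont : ∀ x, ContinuousOn (fun t => T t x) (Ici 0)

/-- The operator with graph `A` is the (infinitesimal) generator of `T`. -/
def IsGenerator {E : Type} [NormedAddCommGroup E] [NormedSpace ℂ E]
    (A : E → E → Prop) (T : ℝ → E →L[ℂ] E) : Prop :=
  ∀ φ ψ : E, Tendsto (fun t : ℝ => t⁻¹ • (T t φ - φ)) (𝓝[>] 0) (𝓝 ψ) ↔ A φ ψ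

/-- `U₁ = M₁ + P` generates the `C₀`-semigroup `T` on the complex space `L¹(μ)`. -/
def Generates {Ω : Type} [MeasurableSpace Ω] (D : JumpData Ω) (T : ℝ → D.X →L[ℂ] D.X) : Prop :=
  IsC0Semigroup T ∧ IsGenerator D.IsU1 T

/-- `‖T(t)‖ ≥ exp(c t)` for all `t ≥ 0`. -/
def NormLowerBound {E : Type} [NormedAddCommGroup E] [NormedSpace ℂ E] (c : ℝ)
    (T : ℝ → E →L[ℂ] E) : Prop :=
  ∀ t : ℝ, 0 ≤ t → Real.exp (c * t) ≤ ‖T t‖

/-- `sup_{t ≥ 0} ‖T(t)‖ < ∞`. -/
def UniformlyBounded {E : Type} [NormedAddCommGroup E] [NormedSpace ℂ E]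
    (T : ℝ → E →L[ℂ] E) : Prop :=
  ∃ C : ℝ, ∀ t : ℝ, 0 ≤ t → ‖T t‖ ≤ C

/-! ### Growth from an eigenvector -/

lemma growth {E : Type} [NormedAddCommGroup E] [NormedSpace ℂ E]
    (A : E → E → Prop) (T : ℝ → E →L[ℂ] E) (hT : IsC0Semigroup T) (hA : IsGenerator A T)
    (φ : E) (hφ : φ ≠ 0) (lam : ℝ) (heig : A φ ((lam : ℂ) • φ)) (t : ℝ) (ht : 0 ≤ t) :
    Real.exp (lam * t) ≤ ‖T t‖ := by
  rw [Complex.coe_smul] at heig
  have h1 := (hA φ (lam • φ)).2 heig
  -- right derivative of the orbit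
  have hder : ∀ s ∈ Ico (0 : ℝ) t,
      HasDerivWithinAt (fun u => T u φ) (lam • T s φ) (Ici s) s := by
    intro s hs
    rw [← hasDerivWithinAt_Ioi_iff_Ici, hasDerivWithinAt_iff_tendsto_slope]
    have h2 : Tendsto (fun u : ℝ => u - s) (𝓝[Ioi s \ {s}] s) (𝓝[>] 0) := by
      rw [tendsto_nhdsWithin_iff]
      constructor
      · have : Tendsto (fun u : ℝ => u - s) (𝓝 s) (𝓝 (s - s)) :=
          (continuous_id.sub continuous_const).tendsto s
        rw [sub_self] at this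
        exact this.mono_left nhdsWithin_le_nhds
      · filter_upwards [self_mem_nhdsWithin] with u hu
        have hu1 : s < u := hu.1
        exact sub_pos.mpr hu1
    have h3 := h1.comp h2
    have h4 := ((T s).continuous.tendsto (lam • φ)).comp h3
    have h5 : (T s) (lam • φ) = lam • T s φ := by
      rw [← Complex.coe_smul, map_smul, Complex.coe_smul]
    rw [h5] at h4
    refine h4.congr' ?_
    filter_upwards [self_mem_nhdsWithin] with u hu
    have hu1 : s < u := hu.1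
    have hu' : 0 ≤ u - s := (sub_pos.mpr hu1).le
    have hsp : T u = T s * T (u - s) := by
      rw [← hT.add s (u - s) hs.1 hu']; congr 1; ring
    simp only [Function.comp, slope, vsub_eq_sub]
    rw [hsp, ← Complex.coe_smul, map_smul, Complex.coe_smul, map_sub]
    rfl
  set f : ℝ → E := fun u => Real.exp (-(lam * u)) • T u φ with hf
  have hcont : ContinuousOn f (Icc 0 t) := by
    have hc1 : ContinuousOn (fun u : ℝ => Real.exp (-(lam * u))) (Icc 0 t) := by fun_prop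
    exact hc1.smul ((hT.cont φ).mono Icc_subset_Ici_self)
  have hder0 : ∀ s ∈ Ico (0 : ℝ) t, HasDerivWithinAt f 0 (Ici s) s := by
    intro s hs
    have he : HasDerivAt (fun u : ℝ => Real.exp (-(lam * u))) (Real.exp (-(lam * s)) * (-lam)) s := by
      have h6 : HasDerivAt (fun u : ℝ => -(lam * u)) (-lam) s := by
        have h9 := ((hasDerivAt_id s).const_mul lam).neg
        rw [mul_one] at h9
        exact h9
      exact h6.exp
    have h7 := he.hasDerivWithinAt.smul (hder s hs) (s := Ici s)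
    have h8 : Real.exp (-(lam * s)) • lam • (T s) φ + (Real.exp (-(lam * s)) * -lam) • (T s) φ
        = 0 := by
      rw [smul_smul, ← add_smul]
      simp
    rw [h8] at h7
    exact h7
  have hconst := constant_of_has_deriv_right_zero hcont hder0 t ⟨ht, le_rfl⟩
  have hT0 : f 0 = φ := by simp [hf, hT.zero]
  rw [hT0] at hconst
  have hTt : T t φ = Real.exp (lam * t) • φ := by
    have h10 : Real.exp (lam * t) • f t = T t φ := by
      simp only [hf]
      rw [smul_smul, ← Real.exp_add]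
      simp
    rw [← h10, hconst]
  have h8 := (T t).le_opNorm φ
  rw [hTt, norm_smul, Real.norm_of_nonneg (Real.exp_pos _).le] at h8
  exact le_of_mul_le_mul_right h8 (norm_pos_iff.mpr hφ)

/-! ### A bounded operator generates a `C₀`-semigroup -/

lemma bounded_generates {E : Type} [NormedAddCommGroup E] [NormedSpace ℂ E] [CompleteSpace E]
    (A : E → E → Prop) (B : E →L[ℂ] E) (hB : ∀ φ ψ, A φ ψ ↔ ψ = B φ) :
    ∃ T : ℝ → E →L[ℂ] E, IsC0Semigroup T ∧ IsGenerator A T := by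
  let _ : NormedAlgebra ℝ (E →L[ℂ] E) := NormedAlgebra.restrictScalars ℝ ℂ _
  let _ : NormedAlgebra ℚ (E →L[ℂ] E) := NormedAlgebra.restrictScalars ℚ ℂ _
  have hd : ∀ t : ℝ, HasDerivAt (fun u : ℝ => NormedSpace.exp (u • B))
      (NormedSpace.exp (t • B) * B) t := fun t => hasDerivAt_exp_smul_const B t
  have hdx : ∀ (t : ℝ) (x : E), HasDerivAt (fun u : ℝ => NormedSpace.exp (u • B) x)
      ((NormedSpace.exp (t • B) * B) x) t := by
    intro t x
    exact ((ContinuousLinearMap.apply ℂ E x).restrictScalars ℝ).hasFDerivAt.comp_hasDerivAt t (hd t)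
  refine ⟨fun t => NormedSpace.exp (t • B), ⟨?_, ?_, ?_⟩, ?_⟩
  · simp
  · intro s t _ _
    show NormedSpace.exp ((s + t) • B) = _
    rw [add_smul]
    exact NormedSpace.exp_add_of_commute (((Commute.refl B).smul_left s).smul_right t)
  · intro x
    exact (continuous_iff_continuousAt.mpr fun t => (hdx t x).continuousAt).continuousOn
  · intro φ ψ
    have h0 := (hdx 0 φ).hasDerivWithinAt (s := Ioi 0)
    rw [hasDerivWithinAt_iff_tendsto_slope] at h0
    have hset : Ioi (0 : ℝ) \ {0} = Ioi 0 := by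
      ext x; simp only [Set.mem_sdiff, mem_Ioi, mem_singleton_iff]
      exact ⟨fun h => h.1, fun h => ⟨h, h.ne'⟩⟩
    have hB0 : (NormedSpace.exp ((0 : ℝ) • B) * B) φ = B φ := by simp
    rw [hset, hB0] at h0
    have h1 : Tendsto (fun t : ℝ => t⁻¹ • (NormedSpace.exp (t • B) φ - φ)) (𝓝[>] 0) (𝓝 (B φ)) := by
      refine h0.congr (fun t => ?_)
      simp [slope]
    rw [hB]
    constructor
    · intro h
      exact tendsto_nhds_unique h h1
    · rintro rfl
      exact h1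

/-! ### The example -/

/-- the kernel -/
noncomputable def ker (x y : ℕ) : ℝ :=
  if x = y + 1 then 8 ^ x else if y = x + 1 then 4 * 8 ^ x else 0

/-- the reference measure -/
noncomputable def nu : Measure ℕ :=
  (Measure.count : Measure ℕ).withDensity (fun n => ENNReal.ofReal ((1 / 8 : ℝ) ^ n))

/-- the example -/
noncomputable def ex : JumpData ℕ where
  ν := nu
  p := ker
  ω := fun n => (1 / 2 : ℝ) ^ n

lemma nu_singleton (n : ℕ) : nu {n} = ENNReal.ofReal ((1 / 8 : ℝ) ^ n) := by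
  unfold nu
  rw [withDensity_apply _ (measurableSet_singleton n), lintegral_singleton]
  simp

lemma mu_singleton (n : ℕ) : ex.mu {n} = ENNReal.ofReal ((1 / 16 : ℝ) ^ n) := by
  unfold JumpData.mu
  rw [withDensity_apply _ (measurableSet_singleton n), lintegral_singleton]
  show ENNReal.ofReal ((1 / 2 : ℝ) ^ n) * nu {n} = _
  rw [nu_singleton, ← ENNReal.ofReal_mul (by positivity), ← mul_pow]
  norm_num

lemma mu_ae {P : ℕ → Prop} (h : ∀ᵐ n ∂ex.mu, P n) (n : ℕ) : P n := by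
  by_contra hn
  have h1 : ex.mu {n} = 0 := measure_mono_null (fun x hx => by rw [mem_singleton_iff.mp hx]; exact hn)
    (ae_iff.mp h)
  rw [mu_singleton] at h1
  have : (0 : ℝ) < (1 / 16 : ℝ) ^ n := by positivity
  exact absurd h1 (ENNReal.ofReal_pos.mpr this).ne'

lemma lint_fin (g : ℕ → ℝ) (hg : ∀ n, 0 ≤ g n) (s : Finset ℕ) (hs : ∀ n ∉ s, g n = 0) :
    ∫⁻ y, ENNReal.ofReal (g y) ∂nu = ENNReal.ofReal (∑ y ∈ s, g y * (1 / 8 : ℝ) ^ y) := by
  rw [lintegral_countable', tsum_eq_sum (s := s)]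
  · rw [ENNReal.ofReal_sum_of_nonneg (fun i _ => mul_nonneg (hg i) (by positivity))]
    apply Finset.sum_congr rfl
    intro i _
    rw [nu_singleton, ENNReal.ofReal_mul (hg i)]
  · intro n hn
    rw [hs n hn]; simp

lemma pow8 (n : ℕ) : (8 : ℝ) ^ n * (1 / 8) ^ n = 1 := by
  rw [← mul_pow]; norm_num

lemma ker_nonneg (x y : ℕ) : 0 ≤ ker x y := by
  unfold ker; split_ifs <;> positivity

/-- real value of σ -/
noncomputable def sig (n : ℕ) : ℝ := if n = 0 then 1 else 5

lemma sigma_eq (x : ℕ) : ex.sigma x = ENNReal.ofReal (sig x) := by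
  show ∫⁻ y, ENNReal.ofReal (ker y x) ∂nu = _
  rcases x with _ | x
  · rw [lint_fin (fun y => ker y 0) (fun y => ker_nonneg y 0) {1}]
    · congr 1
      simp [ker, sig]
    · intro n hn
      simp only [Finset.mem_singleton] at hn
      simp [ker, hn]
  · rw [lint_fin (fun y => ker y (x + 1)) (fun y => ker_nonneg y _) {x, x + 2}]
    · congr 1
      rw [Finset.sum_pair (by omega)]
      have h1 : ker x (x + 1) = 4 * 8 ^ x := by
        unfold ker; rw [if_neg (by omega), if_pos rfl]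
      have h2 : ker (x + 2) (x + 1) = 8 ^ (x + 2) := by
        unfold ker; rw [if_pos (by omega)]
      have h3 : sig (x + 1) = 5 := by simp [sig]
      rw [h1, h2, h3, mul_assoc, pow8, pow8]; norm_num
    · intro n hn
      simp only [Finset.mem_insert, Finset.mem_singleton, not_or] at hn
      simp only [ker]
      rw [if_neg (by omega), if_neg (by omega)]

lemma sigmaHat_le (y : ℕ) : ex.sigmaHat y ≤ ENNReal.ofReal (17 / 2) := by
  show ∫⁻ x, ENNReal.ofReal (ker y x) ∂nu ≤ _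
  rcases y with _ | y
  · rw [lint_fin (fun x => ker 0 x) (fun x => ker_nonneg 0 x) {1}]
    · apply ENNReal.ofReal_le_ofReal
      simp [ker]; norm_num
    · intro n hn
      simp only [Finset.mem_singleton] at hn
      simp [ker, hn]
  · rw [lint_fin (fun x => ker (y + 1) x) (fun x => ker_nonneg _ x) {y, y + 2}]
    · apply ENNReal.ofReal_le_ofReal
      rw [Finset.sum_pair (by omega)]
      have h1 : ker (y + 1) y = 8 ^ (y + 1) := by
        unfold ker; rw [if_pos rfl]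
      have h2 : ker (y + 1) (y + 2) = 4 * 8 ^ (y + 1) := by
        unfold ker; rw [if_neg (by omega), if_pos (by omega)]
      rw [h1, h2]
      have e1 : (8 : ℝ) ^ (y + 1) * (1 / 8) ^ y = 8 * ((8 : ℝ) ^ y * (1 / 8) ^ y) := by ring
      have e2 : 4 * (8 : ℝ) ^ (y + 1) * (1 / 8) ^ (y + 2) = 1 / 2 * ((8 : ℝ) ^ y * (1 / 8) ^ y) := by
        ring
      rw [e1, e2, pow8]; norm_num
    · intro n hn
      simp only [Finset.mem_insert, Finset.mem_singleton, not_or] at hn
      simp only [ker]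
      rw [if_neg (by omega), if_neg (by omega)]

lemma nu_univ : nu univ < ∞ := by
  unfold nu
  rw [withDensity_apply _ MeasurableSet.univ, Measure.restrict_univ, lintegral_count,
    ← ENNReal.ofReal_tsum_of_nonneg (fun n => by positivity)
      (summable_geometric_of_lt_one (by norm_num) (by norm_num))]
  exact ENNReal.ofReal_lt_top

lemma admissible : ex.Admissible where
  sigmaFinite := by
    have : IsFiniteMeasure nu := ⟨nu_univ⟩
    exact (inferInstance : SigmaFinite nu)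
  p_meas := measurable_of_countable _
  p_nonneg := ker_nonneg
  ω_meas := measurable_of_countable _
  ω_pos := fun x => by
    show (0 : ℝ) < (1 / 2 : ℝ) ^ x
    positivity
  balance := by
    intro x y
    show (1 / 2 : ℝ) ^ x * ker x y = (1 / 2 : ℝ) ^ y * ker y x
    unfold ker
    by_cases h1 : x = y + 1
    · subst h1
      rw [if_pos rfl, if_neg (by omega), if_pos rfl]
      ring
    · by_cases h2 : y = x + 1
      · subst h2
        rw [if_neg (by omega), if_pos rfl, if_pos rfl]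
        ring
      · rw [if_neg h1, if_neg h2, if_neg h2, if_neg h1]; simp
  sigma_pos := by
    apply ae_of_all
    intro x
    rw [sigma_eq]
    refine ⟨ENNReal.ofReal_pos.mpr ?_, ENNReal.ofReal_lt_top⟩
    unfold sig; split_ifs <;> norm_num
  condA := by
    refine lt_of_le_of_lt (iSup_le (fun y => ?_)) (ENNReal.ofReal_lt_top (r := 17 / 2))
    refine le_trans ?_ (sigmaHat_le y)
    refine ENNReal.div_le_of_le_mul ?_
    calc ex.sigmaHat y = ex.sigmaHat y * 1 := (mul_one _).symm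
      _ ≤ ex.sigmaHat y * (1 + ex.sigma y) := by gcongr; exact le_self_add

lemma omega_inv_integrable : Integrable (fun x => (ex.ω x)⁻¹) ex.mu := by
  refine ⟨(measurable_of_countable _).aestronglyMeasurable, ?_⟩
  rw [hasFiniteIntegral_iff_enorm, lintegral_countable']
  have : ∀ n : ℕ, ‖(ex.ω n)⁻¹‖ₑ * ex.mu {n} = ENNReal.ofReal ((1 / 8 : ℝ) ^ n) := by
    intro n
    rw [mu_singleton]
    show ‖((1 / 2 : ℝ) ^ n)⁻¹‖ₑ * _ = _
    rw [Real.enorm_eq_ofReal (by positivity), ← ENNReal.ofReal_mul (by positivity),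
      ← inv_pow, ← mul_pow]
    norm_num
  simp_rw [this]
  rw [← ENNReal.ofReal_tsum_of_nonneg (fun n => by positivity)
      (summable_geometric_of_lt_one (by norm_num) (by norm_num))]
  exact ENNReal.ofReal_lt_top

/-- The explicit form of the operator. -/
noncomputable def U (f : ℕ → ℂ) (n : ℕ) : ℂ :=
  -(sig n : ℂ) * f n + ((if n = 0 then 0 else 8 * f (n - 1)) + (1 / 2) * f (n + 1))

lemma P_eq (f : ℕ → ℂ) (n : ℕ) :
    ∫ y, (ker n y : ℂ) * f y ∂nu = (if n = 0 then 0 else 8 * f (n - 1)) + (1 / 2) * f (n + 1) := by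
  have : IsFiniteMeasure nu := ⟨nu_univ⟩
  set s : Finset ℕ := {n - 1, n + 1} with hs
  have hzero : ∀ y, y ∉ (s : Set ℕ) → (ker n y : ℂ) * f y = 0 := by
    intro y hy
    simp only [hs, Finset.coe_insert, Finset.coe_singleton, mem_insert_iff, mem_singleton_iff,
      not_or] at hy
    have : ker n y = 0 := by
      unfold ker
      rw [if_neg (by omega), if_neg (by omega)]
    rw [this]; simp
  rw [← setIntegral_eq_integral_of_forall_compl_eq_zero hzero, setIntegral_finset]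
  · have hreal : ∀ k, nu.real {k} = (1 / 8 : ℝ) ^ k := by
      intro k
      rw [Measure.real, nu_singleton, ENNReal.toReal_ofReal (by positivity)]
    rw [hs, Finset.sum_pair (by omega)]
    rw [hreal, hreal]
    have h2 : ker n (n + 1) = 4 * 8 ^ n := by
      unfold ker; rw [if_neg (by omega), if_pos (by omega)]
    rw [h2]
    have e2 : ((1 / 8 : ℝ) ^ (n + 1)) * (4 * 8 ^ n) = 1 / 2 := by
      have := pow8 n
      rw [pow_succ]; linear_combination (1 / 2) * this
    rcases n with _ | n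
    · have h1 : ker 0 (0 - 1) = 0 := by simp [ker]
      rw [h1]
      simp only [Complex.real_smul]
      rw [← mul_assoc ((((1 / 8 : ℝ) ^ (0 + 1) : ℝ)) : ℂ), ← Complex.ofReal_mul, e2]
      simp
    · have h1 : ker (n + 1) (n + 1 - 1) = 8 ^ (n + 1) := by
        unfold ker; rw [if_pos (by omega)]
      have e1 : ((1 / 8 : ℝ) ^ (n + 1 - 1)) * (8 ^ (n + 1)) = 8 := by
        have := pow8 n
        rw [Nat.add_sub_cancel, pow_succ]; linear_combination 8 * this
      rw [h1]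
      simp only [Complex.real_smul]
      rw [← mul_assoc ((((1 / 8 : ℝ) ^ (n + 1 + 1) : ℝ)) : ℂ), ← Complex.ofReal_mul, e2,
        ← mul_assoc ((((1 / 8 : ℝ) ^ (n + 1 - 1) : ℝ)) : ℂ), ← Complex.ofReal_mul, e1]
      simp
  · exact IntegrableOn.of_finite s.finite_toSet

lemma isU1_iff (φ ψ : Lp ℂ 1 ex.mu) : ex.IsU1 φ ψ ↔ ∀ n, ψ n = U φ n := by
  show ex.IsU1fn φ ψ ↔ _
  unfold JumpData.IsU1fn
  have hs : ∀ x, (ex.sigma x).toReal = sig x := by
    intro x
    rw [sigma_eq, ENNReal.toReal_ofReal]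
    unfold sig; split_ifs <;> norm_num
  constructor
  · rintro ⟨_, h⟩ n
    have h5 := mu_ae h n
    simp only [hs] at h5
    rw [h5]
    unfold U
    congr 1
    exact P_eq φ n
  · intro h
    refine ⟨?_, ?_⟩
    · simp_rw [hs]
      refine (L1.integrable_coeFn φ).bdd_mul (c := 5)
        (measurable_of_countable _).aestronglyMeasurable (ae_of_all _ fun n => ?_)
      unfold sig; split_ifs <;> simp
    · apply ae_of_all
      intro n
      simp only [hs]
      rw [h n]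
      unfold U
      congr 1
      exact (P_eq φ n).symm

lemma lint_mu (g : ℕ → ℝ≥0∞) : ∫⁻ n, g n ∂ex.mu = ∑' n, g n * ENNReal.ofReal ((1 / 16 : ℝ) ^ n) := by
  rw [lintegral_countable']
  simp_rw [mu_singleton]

lemma ofReal16 (n : ℕ) : ENNReal.ofReal ((1 / 16 : ℝ) ^ n) =
    16 * ENNReal.ofReal ((1 / 16 : ℝ) ^ (n + 1)) := by
  have : (16 : ℝ≥0∞) = ENNReal.ofReal 16 := by norm_num
  rw [this, ← ENNReal.ofReal_mul (by norm_num)]
  congr 1
  rw [pow_succ]; ring

lemma right_bound (f : ℕ → ℂ) :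
    ∫⁻ n, ‖f (n + 1)‖ₑ ∂ex.mu ≤ 16 * ∫⁻ n, ‖f n‖ₑ ∂ex.mu := by
  rw [lint_mu, lint_mu, ← ENNReal.tsum_mul_left]
  rw [tsum_eq_zero_add' (f := fun n => 16 * (‖f n‖ₑ * ENNReal.ofReal ((1 / 16 : ℝ) ^ n)))
    ENNReal.summable]
  refine le_trans (le_of_eq ?_) le_add_self
  apply tsum_congr
  intro n
  rw [ofReal16 n]; ring

lemma left_bound (f : ℕ → ℂ) :
    ∫⁻ n, ‖(if n = 0 then 0 else f (n - 1) : ℂ)‖ₑ ∂ex.mu ≤ ∫⁻ n, ‖f n‖ₑ ∂ex.mu := by
  rw [lint_mu, lint_mu]
  rw [tsum_eq_zero_add' (f := fun n => ‖(if n = 0 then 0 else f (n - 1) : ℂ)‖ₑ *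
    ENNReal.ofReal ((1 / 16 : ℝ) ^ n)) ENNReal.summable]
  simp only [if_true, enorm_zero, zero_mul, zero_add]
  apply ENNReal.tsum_le_tsum
  intro n
  rw [if_neg (by omega), Nat.add_sub_cancel, ofReal16 n]
  gcongr
  calc ENNReal.ofReal ((1 / 16 : ℝ) ^ (n + 1)) = 1 * ENNReal.ofReal ((1 / 16 : ℝ) ^ (n + 1)) :=
        (one_mul _).symm
    _ ≤ 16 * ENNReal.ofReal ((1 / 16 : ℝ) ^ (n + 1)) := by gcongr; norm_num

lemma U_bound (f : ℕ → ℂ) :
    ∫⁻ n, ‖U f n‖ₑ ∂ex.mu ≤ 21 * ∫⁻ n, ‖f n‖ₑ ∂ex.mu := by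
  have h1 : ∀ n, ‖U f n‖ₑ ≤ 5 * ‖f n‖ₑ + (8 * ‖(if n = 0 then 0 else f (n - 1) : ℂ)‖ₑ
      + 2⁻¹ * ‖f (n + 1)‖ₑ) := by
    intro n
    unfold U
    refine (enorm_add_le _ _).trans (add_le_add ?_ ((enorm_add_le _ _).trans (add_le_add ?_ ?_)))
    · rw [enorm_mul]
      gcongr
      rw [enorm_neg, ← ofReal_norm]
      have : (5 : ℝ≥0∞) = ENNReal.ofReal 5 := by norm_num
      rw [this]
      apply ENNReal.ofReal_le_ofReal
      unfold sig; split_ifs <;> simp
    · split_ifs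
      · simp
      · rw [enorm_mul]
        gcongr
        rw [← ofReal_norm]
        simp
    · rw [enorm_mul]
      gcongr
      rw [← ofReal_norm]
      rw [show ‖(1 / 2 : ℂ)‖ = (2 : ℝ)⁻¹ by simp, ENNReal.ofReal_inv_of_pos (by norm_num)]
      simp
  calc ∫⁻ n, ‖U f n‖ₑ ∂ex.mu
      ≤ ∫⁻ n, (5 * ‖f n‖ₑ + (8 * ‖(if n = 0 then 0 else f (n - 1) : ℂ)‖ₑ
      + 2⁻¹ * ‖f (n + 1)‖ₑ)) ∂ex.mu := lintegral_mono h1
    _ = 5 * ∫⁻ n, ‖f n‖ₑ ∂ex.mu + (8 * ∫⁻ n, ‖(if n = 0 then 0 else f (n - 1) : ℂ)‖ₑ ∂ex.mu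
      + 2⁻¹ * ∫⁻ n, ‖f (n + 1)‖ₑ ∂ex.mu) := by
        rw [lintegral_add_left (measurable_of_countable _),
          lintegral_add_left (measurable_of_countable _),
          lintegral_const_mul _ (measurable_of_countable _),
          lintegral_const_mul _ (measurable_of_countable _),
          lintegral_const_mul _ (measurable_of_countable _)]
    _ ≤ 5 * ∫⁻ n, ‖f n‖ₑ ∂ex.mu + (8 * ∫⁻ n, ‖f n‖ₑ ∂ex.mu
      + 2⁻¹ * (16 * ∫⁻ n, ‖f n‖ₑ ∂ex.mu)) := by
        exact add_le_add le_rfl (add_le_add (mul_le_mul' le_rfl (left_bound f))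
          (mul_le_mul' le_rfl (right_bound f)))
    _ = 21 * ∫⁻ n, ‖f n‖ₑ ∂ex.mu := by
        have : (2 : ℝ≥0∞)⁻¹ * 16 = 8 := by
          rw [show (16 : ℝ≥0∞) = 2 * 8 by norm_num, ← mul_assoc,
            ENNReal.inv_mul_cancel (by norm_num) (by norm_num), one_mul]
        rw [← mul_assoc (2⁻¹ : ℝ≥0∞), this, ← add_mul, ← add_mul]
        norm_num

lemma memLp_of_lint {f : ℕ → ℂ} (h : ∫⁻ n, ‖f n‖ₑ ∂ex.mu < ∞) : MemLp f 1 ex.mu := by
  rw [memLp_one_iff_integrable]
  exact ⟨(measurable_of_countable _).aestronglyMeasurable, h⟩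

lemma lint_Lp (φ : Lp ℂ 1 ex.mu) : ∫⁻ n, ‖φ n‖ₑ ∂ex.mu = ENNReal.ofReal ‖φ‖ := by
  rw [Lp.norm_def, eLpNorm_one_eq_lintegral_enorm, ENNReal.ofReal_toReal]
  rw [← eLpNorm_one_eq_lintegral_enorm]
  exact (Lp.memLp φ).2.ne

lemma memLp_U (φ : Lp ℂ 1 ex.mu) : MemLp (U φ) 1 ex.mu := by
  apply memLp_of_lint
  refine (U_bound φ).trans_lt ?_
  rw [lint_Lp]
  exact ENNReal.mul_lt_top (by norm_num) ENNReal.ofReal_lt_top

/-- `U₁` as a bounded operator. -/
noncomputable def B : Lp ℂ 1 ex.mu →L[ℂ] Lp ℂ 1 ex.mu :=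
  LinearMap.mkContinuous
    { toFun := fun φ => (memLp_U φ).toLp (U φ)
      map_add' := by
        intro φ ψ
        rw [← MemLp.toLp_add]
        apply MemLp.toLp_congr
        apply ae_of_all
        intro n
        have h : ∀ k, (φ + ψ : Lp ℂ 1 ex.mu) k = φ k + ψ k := fun k => mu_ae (Lp.coeFn_add φ ψ) k
        simp only [U, h, Pi.add_apply]
        split_ifs <;> ring
      map_smul' := by
        intro c φ
        simp only [RingHom.id_apply]
        rw [← MemLp.toLp_const_smul]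
        apply MemLp.toLp_congr
        apply ae_of_all
        intro n
        have h : ∀ k, (c • φ : Lp ℂ 1 ex.mu) k = c * φ k := fun k => mu_ae (Lp.coeFn_smul c φ) k
        simp only [U, h, Pi.smul_apply, smul_eq_mul]
        split_ifs <;> ring }
    21
    (by
      intro φ
      simp only [LinearMap.coe_mk, AddHom.coe_mk]
      rw [Lp.norm_toLp, eLpNorm_one_eq_lintegral_enorm]
      apply ENNReal.toReal_le_of_le_ofReal (by positivity)
      refine (U_bound φ).trans ?_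
      rw [lint_Lp, ENNReal.ofReal_mul (by norm_num)]
      norm_num)

lemma B_iff (φ ψ : Lp ℂ 1 ex.mu) : ex.IsU1 φ ψ ↔ ψ = B φ := by
  rw [isU1_iff]
  have hB : ∀ n, (B φ) n = U φ n := fun n => mu_ae (MemLp.coeFn_toLp (memLp_U φ)) n
  constructor
  · intro h
    apply Lp.ext
    apply ae_of_all
    intro n
    rw [h n, hB n]
  · rintro rfl n
    exact hB n

/-- the eigenfunction -/
noncomputable def eig (n : ℕ) : ℂ := 8 ^ n * (3 * (3 / 2) ^ n + 5 * (1 / 6) ^ n)

lemma U_eig (n : ℕ) : U eig n = (5 / 3 : ℂ) * eig n := by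
  rcases n with _ | n
  · simp [U, eig, sig]; norm_num
  · simp only [U, eig, sig, Nat.add_eq_zero_iff, one_ne_zero, and_false, if_false,
      Nat.add_sub_cancel]
    push_cast
    ring

lemma eig_lint : ∫⁻ n, ‖eig n‖ₑ ∂ex.mu < ∞ := by
  rw [lint_mu]
  have h : ∀ n, ‖eig n‖ₑ * ENNReal.ofReal ((1 / 16 : ℝ) ^ n) =
      ENNReal.ofReal (3 * (3 / 4 : ℝ) ^ n + 5 * (1 / 12 : ℝ) ^ n) := by
    intro n
    have h1 : eig n = ((8 ^ n * (3 * (3 / 2) ^ n + 5 * (1 / 6) ^ n) : ℝ) : ℂ) := by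
      unfold eig; push_cast; ring
    rw [h1, ← ofReal_norm, Complex.norm_of_nonneg (by positivity),
      ← ENNReal.ofReal_mul (by positivity)]
    congr 1
    have e1 : (3 / 4 : ℝ) ^ n = 8 ^ n * (3 / 2) ^ n * (1 / 16) ^ n := by
      rw [← mul_pow, ← mul_pow]; norm_num
    have e2 : (1 / 12 : ℝ) ^ n = 8 ^ n * (1 / 6) ^ n * (1 / 16) ^ n := by
      rw [← mul_pow, ← mul_pow]; norm_num
    rw [e1, e2]; ring
  simp_rw [h]
  rw [← ENNReal.ofReal_tsum_of_nonneg (fun n => by positivity)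
    (((summable_geometric_of_lt_one (by norm_num) (by norm_num)).mul_left 3).add
      ((summable_geometric_of_lt_one (by norm_num) (by norm_num)).mul_left 5))]
  exact ENNReal.ofReal_lt_top

/-- **Q1 of MP_ae1cd8_an is false.**  There are data satisfying all the standing assumptions
(detailed balance, no absorption, condition (A)) with `ω⁻¹ ∈ L¹(μ)` (on `Ω = ℕ`, with bounded rates
and a finite measure `ν`) for which `U₁` generates a `C₀`-semigroup on `L¹(μ)`, and every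
`C₀`-semigroup `T` generated by `U₁` satisfies `‖T(t)‖ ≥ exp(5t/3)` for all `t ≥ 0`; in particular
`U₁` does not generate a uniformly bounded `C₀`-semigroup. -/
theorem result :
    ∃ (Ω : Type) (_ : MeasurableSpace Ω) (D : JumpData Ω),
      D.Admissible ∧ Integrable (fun x => (D.ω x)⁻¹) D.mu ∧
      (∃ T, Generates D T) ∧
      (∀ T, Generates D T → NormLowerBound (5 / 3) T) ∧
      ¬ (∃ T, Generates D T ∧ UniformlyBounded T) := by
  have hg : ∀ T : ℝ → ex.X →L[ℂ] ex.X, Generates ex T → NormLowerBound (5 / 3) T := by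
    intro T hTA t ht
    obtain ⟨hT, hA⟩ := hTA
    set φ : Lp ℂ 1 ex.mu := (memLp_of_lint eig_lint).toLp eig with hφ
    have hφn : ∀ n, φ n = eig n := fun n => mu_ae (MemLp.coeFn_toLp (memLp_of_lint eig_lint)) n
    refine growth (E := ex.X) ex.IsU1 T hT hA φ ?_ (5 / 3) ?_ t ht
    · intro h0
      have h1 : φ 0 = 0 := by
        rw [h0]
        exact mu_ae (Lp.coeFn_zero ℂ 1 ex.mu) 0
      rw [hφn 0] at h1
      simp only [eig, pow_zero, one_mul, mul_one] at h1
      norm_num at h1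
    · refine (isU1_iff φ ((((5 / 3 : ℝ) : ℂ)) • φ : Lp ℂ 1 ex.mu)).2 ?_
      intro n
      have h2 : ((((5 / 3 : ℝ) : ℂ)) • φ : Lp ℂ 1 ex.mu) n = ((5 / 3 : ℝ) : ℂ) • φ n :=
        mu_ae (Lp.coeFn_smul ((5 / 3 : ℝ) : ℂ) φ) n
      rw [h2]
      have h3 : U φ n = U eig n := by
        unfold U; simp only [hφn]
      rw [h3, U_eig, hφn, smul_eq_mul]
      push_cast
      rfl
  refine ⟨ℕ, inferInstance, ex, admissible, omega_inv_integrable,
    bounded_generates (E := Lp ℂ 1 ex.mu) ex.IsU1 B B_iff, hg, ?_⟩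
  rintro ⟨T, hTA, C, hC⟩
  have h1 : ∀ t : ℝ, 0 ≤ t → Real.exp (5 / 3 * t) ≤ C := fun t ht => (hg T hTA t ht).trans (hC t ht)
  have h2 := h1 (max C 0) (le_max_right _ _)
  have h3 := Real.add_one_le_exp (5 / 3 * max C 0)
  have h4 : C ≤ max C 0 := le_max_left _ _
  have h5 : 0 ≤ max C 0 := le_max_right _ _
  linarith

end Pool.Agent.Results.MP_ae1cd8_an.ExponentialGrowth
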